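import Pool.Agent.V7H47.LB.Spec

/-!
# Acute triples of directions (piece ACU of project LB)

The sides of the orthic triangle have the directions `s₁ = b + c - a - π / 2` etc.
-/

set_option autoImplicit false

open Real Set MeasureTheory

namespace Pool.Agent.V7H17.LB

open Pool.Agent.V7H47.TC (Plane IsClosedWorm IsTranslationCover dist_sq)
open Pool.Agent.V7H47.LB

lemma D_add (t : ℝ) (x v : Plane) : D t (x + v) = D t x + D t v := by
  simp only [D, PiLp.add_apply]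
  ring

lemma D_pol (t d s : ℝ) : D t (pol d s) = cos t * (d * cos s) + sin t * (d * sin s) := by
  simp [D, pol]

lemma dist_of {p q : Plane} {l : ℝ} (hl : 0 ≤ l)
    (h : (p 0 - q 0) ^ 2 + (p 1 - q 1) ^ 2 = l ^ 2) : dist p q = l := by
  have h1 := dist_sq p q
  rw [h] at h1
  exact (pow_left_inj₀ dist_nonneg hl two_ne_zero).1 h1

theorem t_ACU (h : S_TRI) : S_ACU := by
  intro K hK a b c hab hbc hca h₁ h₂ h₃ H1 H2 H3
  have hpi := Real.pi_pos
  obtain ⟨s₁, hs₁⟩ : ∃ s, s = b + c - a - π / 2 := ⟨_, rfl⟩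
  obtain ⟨s₂, hs₂⟩ : ∃ s, s = a + c - b - π / 2 := ⟨_, rfl⟩
  obtain ⟨s₃, hs₃⟩ : ∃ s, s = a + b - c - π / 2 := ⟨_, rfl⟩
  have hw : sin (a + 2 * π - c) = sin (a - c) := by
    rw [show a + 2 * π - c = a - c + 2 * π by ring, Real.sin_add_two_pi]
  have w1 : 0 < sin (c - b) := sin_pos_of_pos_of_lt_pi (by linarith) (by linarith)
  have w2 : 0 < sin (a - c) := by
    rw [← hw]
    exact sin_pos_of_pos_of_lt_pi (by linarith) (by linarith)
  have w3 : 0 < sin (b - a) := sin_pos_of_pos_of_lt_pi (by linarith) (by linarith)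
  -- the differences of the directions
  have e1 : cos s₃ - cos s₁ = 2 * sin (a - c) * cos b := by
    rw [Real.cos_sub_cos, hs₃, hs₁,
      show (a + b - c - π / 2 + (b + c - a - π / 2)) / 2 = b - π / 2 by ring,
      show (a + b - c - π / 2 - (b + c - a - π / 2)) / 2 = a - c by ring, Real.sin_sub_pi_div_two]
    ring
  have e2 : sin s₃ - sin s₁ = 2 * sin (a - c) * sin b := by
    rw [Real.sin_sub_sin, hs₃, hs₁,
      show (a + b - c - π / 2 + (b + c - a - π / 2)) / 2 = b - π / 2 by ring,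
      show (a + b - c - π / 2 - (b + c - a - π / 2)) / 2 = a - c by ring, Real.cos_sub_pi_div_two]
  have e3 : cos s₁ - cos s₂ = 2 * sin (b - a) * cos c := by
    rw [Real.cos_sub_cos, hs₂, hs₁,
      show (b + c - a - π / 2 + (a + c - b - π / 2)) / 2 = c - π / 2 by ring,
      show (b + c - a - π / 2 - (a + c - b - π / 2)) / 2 = b - a by ring, Real.sin_sub_pi_div_two]
    ring
  have e4 : sin s₁ - sin s₂ = 2 * sin (b - a) * sin c := by
    rw [Real.sin_sub_sin, hs₂, hs₁,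
      show (b + c - a - π / 2 + (a + c - b - π / 2)) / 2 = c - π / 2 by ring,
      show (b + c - a - π / 2 - (a + c - b - π / 2)) / 2 = b - a by ring, Real.cos_sub_pi_div_two]
  -- the lengths
  obtain ⟨L₁, hL₁⟩ : ∃ L, L = sin (s₃ - s₂) := ⟨_, rfl⟩
  obtain ⟨L₂, hL₂⟩ : ∃ L, L = sin (s₁ - s₃) := ⟨_, rfl⟩
  obtain ⟨L₃, hL₃⟩ : ∃ L, L = sin (s₂ - s₁) := ⟨_, rfl⟩
  have p1 : 0 < L₁ := by
    rw [hL₁, hs₂, hs₃, show a + b - c - π / 2 - (a + c - b - π / 2) = 2 * (b - c) by ring,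
      ← Real.sin_add_two_pi]
    exact sin_pos_of_pos_of_lt_pi (by linarith) (by linarith)
  have p2 : 0 < L₂ := by
    rw [hL₂, hs₁, hs₃, show b + c - a - π / 2 - (a + b - c - π / 2) = 2 * (c - a) by ring,
      ← Real.sin_sub_two_pi]
    exact sin_pos_of_pos_of_lt_pi (by linarith) (by linarith)
  have p3 : 0 < L₃ := by
    rw [hL₃, hs₁, hs₂, show a + c - b - π / 2 - (b + c - a - π / 2) = 2 * (a - b) by ring,
      ← Real.sin_add_two_pi]
    exact sin_pos_of_pos_of_lt_pi (by linarith) (by linarith)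
  have c1 : L₁ * cos s₁ + L₂ * cos s₂ + L₃ * cos s₃ = 0 := by
    rw [hL₁, hL₂, hL₃, Real.sin_sub, Real.sin_sub, Real.sin_sub]
    ring
  have c2 : L₁ * sin s₁ + L₂ * sin s₂ + L₃ * sin s₃ = 0 := by
    rw [hL₁, hL₂, hL₃, Real.sin_sub, Real.sin_sub, Real.sin_sub]
    ring
  obtain ⟨L, hL⟩ : ∃ L, L = L₁ + L₂ + L₃ := ⟨_, rfl⟩
  have hL0 : 0 < L := by rw [hL]; positivity
  obtain ⟨l₁, hl₁⟩ : ∃ l, l = L₁ / L := ⟨_, rfl⟩
  obtain ⟨l₂, hl₂⟩ : ∃ l, l = L₂ / L := ⟨_, rfl⟩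
  obtain ⟨l₃, hl₃⟩ : ∃ l, l = L₃ / L := ⟨_, rfl⟩
  have q1 : 0 ≤ l₁ := by rw [hl₁]; positivity
  have q2 : 0 ≤ l₂ := by rw [hl₂]; positivity
  have q3 : 0 ≤ l₃ := by rw [hl₃]; positivity
  have hsum : l₁ + l₂ + l₃ = 1 := by
    rw [hl₁, hl₂, hl₃, ← add_div, ← add_div, ← hL, div_self hL0.ne']
  have d1 : l₁ * cos s₁ + l₂ * cos s₂ + l₃ * cos s₃ = 0 := by
    have : l₁ * cos s₁ + l₂ * cos s₂ + l₃ * cos s₃ =
        (L₁ * cos s₁ + L₂ * cos s₂ + L₃ * cos s₃) / L := by rw [hl₁, hl₂, hl₃]; ring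
    rw [this, c1, zero_div]
  have d2 : l₁ * sin s₁ + l₂ * sin s₂ + l₃ * sin s₃ = 0 := by
    have : l₁ * sin s₁ + l₂ * sin s₂ + l₃ * sin s₃ =
        (L₁ * sin s₁ + L₂ * sin s₂ + L₃ * sin s₃) / L := by rw [hl₁, hl₂, hl₃]; ring
    rw [this, c2, zero_div]
  have u1 := Real.sin_sq_add_cos_sq s₁
  have u2 := Real.sin_sq_add_cos_sq s₂
  have u3 := Real.sin_sq_add_cos_sq s₃
  have x0 : ∀ d t : ℝ, (pol d t) 0 = d * cos t := fun d t => by simp [pol]
  have x1 : ∀ d t : ℝ, (pol d t) 1 = d * sin t := fun d t => by simp [pol]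
  have hd12 : dist (0 : Plane) (pol l₃ s₃) = l₃ := by
    apply dist_of q3
    rw [x0, x1]
    simp only [PiLp.zero_apply]
    linear_combination l₃ ^ 2 * u3
  have hd23 : dist (pol l₃ s₃) (pol (-l₂) s₂) = l₁ := by
    apply dist_of q1
    rw [x0, x1, x0, x1]
    have g1 : l₃ * cos s₃ - -l₂ * cos s₂ = -(l₁ * cos s₁) := by linarith
    have g2 : l₃ * sin s₃ - -l₂ * sin s₂ = -(l₁ * sin s₁) := by linarith
    rw [g1, g2]
    linear_combination l₁ ^ 2 * u1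
  have hd31 : dist (pol (-l₂) s₂) (0 : Plane) = l₂ := by
    apply dist_of q2
    rw [x0, x1]
    simp only [PiLp.zero_apply]
    linear_combination l₂ ^ 2 * u2
  obtain ⟨v, hv1, hv2, hv3⟩ := h K hK 0 (pol l₃ s₃) (pol (-l₂) s₂) (by
    rw [hd12, hd23, hd31]
    linarith)
  have k1 := H1 _ hv1
  have k2 := H2 _ hv2
  have k3 := H3 _ hv3
  rw [D_add] at k1 k2 k3
  rw [D_pol] at k2 k3
  have k0 : D a (0 : Plane) = 0 := by simp [D]
  rw [k0] at k1
  have hv : sin (c - b) * D a v + sin (a - c) * D b v + sin (b - a) * D c v = 0 := by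
    simp only [D, Real.sin_sub]
    ring
  rw [hw]
  have m1 := mul_le_mul_of_nonneg_left k1 w1.le
  have m2 := mul_le_mul_of_nonneg_left k2 w2.le
  have m3 := mul_le_mul_of_nonneg_left k3 w3.le
  have hkey : sin (a - c) * (cos b * (l₃ * cos s₃) + sin b * (l₃ * sin s₃)) +
      sin (b - a) * (cos c * (-l₂ * cos s₂) + sin c * (-l₂ * sin s₂)) = 1 / 2 := by
    have t1 : sin (a - c) * (cos b * (l₃ * cos s₃) + sin b * (l₃ * sin s₃)) =
        l₃ * ((cos s₃ - cos s₁) * cos s₃ + (sin s₃ - sin s₁) * sin s₃) / 2 := by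
      rw [e1, e2]
      ring
    have t2 : sin (b - a) * (cos c * (-l₂ * cos s₂) + sin c * (-l₂ * sin s₂)) =
        -l₂ * ((cos s₁ - cos s₂) * cos s₂ + (sin s₁ - sin s₂) * sin s₂) / 2 := by
      rw [e3, e4]
      ring
    rw [t1, t2]
    linear_combination (l₃ / 2) * u3 + (l₂ / 2) * u2 + (l₁ / 2) * u1 - (cos s₁ / 2) * d1 -
      (sin s₁ / 2) * d2 + (1 / 2) * hsum
  linarith

end Pool.Agent.V7H17.LB
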